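import Pool.Agent.V11258.F1.Items

set_option autoImplicit false

/-! The balanced set. -/

namespace Pool.Agent.V11258.F1

open Pool.Agent.Helper743 Pool.Agent.H448R3 Pool.Agent.V11258.IOE

/-- the group of an argument -/
def jx (x : ℕ) : ℕ := Nat.log 2 (Nat.log 2 x) - 5
/-- the length of the block of an argument -/
def len (x : ℕ) : ℕ := 2 ^ (Nat.log 2 x - jx x)

theorem jx_spec {x : ℕ} (h : 32 ≤ Nat.log 2 x) :
    2 ^ (jx x + 5) ≤ Nat.log 2 x ∧ Nat.log 2 x < 2 ^ (jx x + 6) := by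
  have h1 : 5 ≤ Nat.log 2 (Nat.log 2 x) := Nat.le_log_of_pow_le (by norm_num) h
  have h2 : jx x + 5 = Nat.log 2 (Nat.log 2 x) := by unfold jx; omega
  have h3 : jx x + 6 = Nat.log 2 (Nat.log 2 x) + 1 := by omega
  rw [h2, h3]
  exact ⟨Nat.pow_log_le_self 2 (by omega), Nat.lt_pow_succ_log_self (by norm_num) _⟩

theorem jx_eq {j x : ℕ} (h1 : 2 ^ (j + 5) ≤ Nat.log 2 x) (h2 : Nat.log 2 x < 2 ^ (j + 6)) :
    jx x = j := by
  unfold jx
  have : 0 < 2 ^ (j + 5) := by positivity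
  have : Nat.log 2 (Nat.log 2 x) = j + 5 := (Nat.log_eq_iff (Or.inl (by omega))).2 ⟨h1, h2⟩
  omega

theorem jx_comp : Computable jx := csub (log2_comp.comp log2_comp) (Computable.const 5)

/-- the balanced set -/
def AA (cw : ℕ → ℕ → List Bool) (q : ℕ → ℕ) (x : ℕ) : Bool :=
  (cw (jx x) (q (jx x))).getD (x % ell (jx x)) false

theorem AA_comp {cw : ℕ → ℕ → List Bool} (hcw : Computable₂ cw) {q : ℕ → ℕ} (hq : Computable q) :
    Computable (AA cw q) :=
  (Primrec.list_getD false).to_comp.comp (hcw.comp jx_comp (hq.comp jx_comp))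
    (cmod Computable.id (ell_comp.comp jx_comp))

/-- decomposition of a block start -/
theorem start_eq {x : ℕ} (h : 32 ≤ Nat.log 2 x) (hd : len x ∣ x) :
    ∃ i, i < 2 ^ jx x ∧ x = (2 ^ jx x + i) * 2 ^ (Nat.log 2 x - jx x) := by
  obtain ⟨t, ht⟩ := hd
  have hx0 : x ≠ 0 := by rintro rfl; simp at h
  obtain ⟨h1, h2⟩ := jx_spec h
  have hj : jx x ≤ Nat.log 2 x := by
    have : jx x < 2 ^ jx x := Nat.lt_two_pow_self
    have h3 : 2 ^ (jx x + 5) = 32 * 2 ^ jx x := by ring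
    omega
  have hlow : 2 ^ Nat.log 2 x ≤ x := Nat.pow_log_le_self 2 hx0
  have hup : x < 2 ^ (Nat.log 2 x + 1) := Nat.lt_pow_succ_log_self (by norm_num) x
  have e1 : 2 ^ Nat.log 2 x = len x * 2 ^ jx x := by
    unfold len; rw [← pow_add]; congr 1; omega
  have e2 : 2 ^ (Nat.log 2 x + 1) = len x * (2 ^ jx x + 2 ^ jx x) := by
    rw [pow_succ, e1]; ring
  have hpos : 0 < len x := by unfold len; positivity
  have h3 : 2 ^ jx x ≤ t := by
    have : len x * 2 ^ jx x ≤ len x * t := by rw [← e1, ← ht]; exact hlow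
    exact Nat.le_of_mul_le_mul_left this hpos
  have h4 : t < 2 ^ jx x + 2 ^ jx x := by
    have : len x * t < len x * (2 ^ jx x + 2 ^ jx x) := by rw [← e2, ← ht]; exact hup
    exact Nat.lt_of_mul_lt_mul_left this
  refine ⟨t - 2 ^ jx x, by omega, ?_⟩
  have h5 : 2 ^ jx x + (t - 2 ^ jx x) = t := by omega
  rw [h5, Nat.mul_comm]
  exact ht

theorem len_mul {x : ℕ} (h : 32 ≤ Nat.log 2 x) : len x * 2 ^ jx x = 2 ^ Nat.log 2 x := by
  obtain ⟨h1, h2⟩ := jx_spec h
  have hj : jx x ≤ Nat.log 2 x := by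
    have : jx x < 2 ^ jx x := Nat.lt_two_pow_self
    have h3 : 2 ^ (jx x + 5) = 32 * 2 ^ jx x := by ring
    omega
  unfold len; rw [← pow_add]; congr 1; omega

/-- within a block the logarithm is constant -/
theorem log_block {x t : ℕ} (h : 32 ≤ Nat.log 2 x) (hd : len x ∣ x) (ht : t < len x) :
    Nat.log 2 (x + t) = Nat.log 2 x := by
  obtain ⟨i, hi, hx⟩ := start_eq h hd
  have hx0 : x ≠ 0 := by rintro rfl; simp at h
  have h3 : len x * 2 ^ jx x = 2 ^ Nat.log 2 x := len_mul h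
  have hlow : 2 ^ Nat.log 2 x ≤ x := Nat.pow_log_le_self 2 hx0
  have hle : len x = 2 ^ (Nat.log 2 x - jx x) := rfl
  rw [← hle] at hx
  have hup : x + len x ≤ 2 ^ (Nat.log 2 x + 1) := by
    have h4 : (2 ^ jx x + i + 1) * len x ≤ (2 ^ jx x + 2 ^ jx x) * len x :=
      Nat.mul_le_mul_right _ (by omega)
    have h5 : (2 ^ jx x + i + 1) * len x = x + len x := by
      rw [Nat.add_mul (2 ^ jx x + i), Nat.one_mul, ← hx]
    have h6 : (2 ^ jx x + 2 ^ jx x) * len x = 2 ^ (Nat.log 2 x + 1) := by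
      rw [pow_succ, ← h3]; ring
    rw [← h5, ← h6]; exact h4
  refine (Nat.log_eq_iff (Or.inl (by omega))).2 ⟨by omega, by omega⟩

theorem next_start {x : ℕ} (h : 32 ≤ Nat.log 2 x) (hd : len x ∣ x) : len (x + len x) ∣ x + len x := by
  obtain ⟨i, hi, hx⟩ := start_eq h hd
  have h3 : len x * 2 ^ jx x = 2 ^ Nat.log 2 x := len_mul h
  have hle : len x = 2 ^ (Nat.log 2 x - jx x) := rfl
  rw [← hle] at hx
  have hpos : 0 < len x := by unfold len; positivity
  have h5 : (2 ^ jx x + i + 1) * len x = x + len x := by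
    rw [Nat.add_mul (2 ^ jx x + i), Nat.one_mul, ← hx]
  have hx0 : x ≠ 0 := by rintro rfl; simp at h
  have hlow : 2 ^ Nat.log 2 x ≤ x := Nat.pow_log_le_self 2 hx0
  by_cases hlt : i + 1 < 2 ^ jx x
  · have hl : Nat.log 2 (x + len x) = Nat.log 2 x := by
      refine (Nat.log_eq_iff (Or.inl (by omega))).2 ⟨by omega, ?_⟩
      have h4 : (2 ^ jx x + i + 1) * len x < (2 ^ jx x + 2 ^ jx x) * len x :=
        Nat.mul_lt_mul_of_pos_right (by omega) hpos
      have h6 : (2 ^ jx x + 2 ^ jx x) * len x = 2 ^ (Nat.log 2 x + 1) := by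
        rw [pow_succ, ← h3]; ring
      rw [← h5, ← h6]; exact h4
    have hj : jx (x + len x) = jx x := by unfold jx; rw [hl]
    have hlen : len (x + len x) = len x := by
      show 2 ^ (Nat.log 2 (x + len x) - jx (x + len x)) = 2 ^ (Nat.log 2 x - jx x)
      rw [hl, hj]
    rw [hlen]
    exact Dvd.dvd.add hd (dvd_refl _)
  · have h7 : i + 1 = 2 ^ jx x := by omega
    have h8 : x + len x = 2 ^ (Nat.log 2 x + 1) := by
      rw [← h5, Nat.add_assoc, h7, pow_succ, ← h3]; ring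
    rw [h8]
    unfold len
    rw [Nat.log_pow (by norm_num)]
    exact pow_dvd_pow 2 (Nat.sub_le _ _)

/-- the chain of block starts -/
def at' (n0 : ℕ) : ℕ → ℕ
  | 0 => n0
  | t + 1 => at' n0 t + len (at' n0 t)

theorem at_ge (n0 t : ℕ) : n0 + t ≤ at' n0 t := by
  induction t with
  | zero => exact le_refl _
  | succ t ih =>
    have : 0 < len (at' n0 t) := by unfold len; positivity
    show n0 + (t + 1) ≤ at' n0 t + len (at' n0 t)
    omega

theorem er_shift' (f g : ℕ → ℕ) (a m : ℕ) :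
    er f g (a + m) = er f g a + er (fun j => f (a + j)) (fun j => g (a + j)) m := by
  induction m with
  | zero => rfl
  | succ m ih => rw [← Nat.add_assoc, er_succ, er_succ, ih, Nat.add_assoc]

theorem chain {cw : ℕ → ℕ → List Bool} {y q : ℕ → ℕ} {j1 : ℕ}
    (hq : ∀ j, j1 ≤ j → ∀ lam i, 2 ^ (j + 5) ≤ lam →
      lam < 2 ^ (j + 6) → i < 2 ^ j →
      bal (2 ^ j) (2 ^ (lam - j))
        (eb cw y j ((2 ^ j + i) * 2 ^ (lam - j)) (2 ^ (lam - j)) (q j)) = true)
    (J : ℕ) (hJ : j1 ≤ J) : ∃ n0 : ℕ, ∀ n, n0 ≤ n →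
      |(n : ℝ) - 2 * er y (fun x => bit (AA cw q x)) n| * 2 ^ J ≤ n0 * 2 ^ J + 2 * n := by
  set z : ℕ → ℕ := fun x => bit (AA cw q x) with hz
  have hJ5 : 32 ≤ 2 ^ (J + 5) := by
    have : 2 ^ (J + 5) = 32 * 2 ^ J := by ring
    have : 0 < 2 ^ J := by positivity
    omega
  let n0 : ℕ := 2 ^ 2 ^ (J + 5)
  have hlog0 : Nat.log 2 n0 = 2 ^ (J + 5) := Nat.log_pow (by norm_num) _
  have hmono : ∀ x, n0 ≤ x → 2 ^ (J + 5) ≤ Nat.log 2 x := by
    intro x hx
    rw [← hlog0]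
    exact Nat.log_mono_right hx
  have h32 : ∀ x, n0 ≤ x → 32 ≤ Nat.log 2 x := fun x hx => le_trans hJ5 (hmono x hx)
  have hjx : ∀ x, n0 ≤ x → J ≤ jx x := by
    intro x hx
    have h1 := (jx_spec (h32 x hx)).2
    have h2 := lt_of_le_of_lt (hmono x hx) h1
    have h3 := (Nat.pow_lt_pow_iff_right (by norm_num : 1 < 2)).1 h2
    omega
  have hlen : ∀ x, n0 ≤ x → (len x : ℝ) * 2 ^ J ≤ x := by
    intro x hx
    have h1 := len_mul (h32 x hx)
    have hx0 : x ≠ 0 := by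
      rintro rfl
      have := h32 0 hx
      simp at this
    have h2 : len x * 2 ^ J ≤ x :=
      calc len x * 2 ^ J ≤ len x * 2 ^ jx x :=
            Nat.mul_le_mul_left _ (Nat.pow_le_pow_right (by norm_num) (hjx x hx))
        _ = 2 ^ Nat.log 2 x := h1
        _ ≤ x := Nat.pow_log_le_self 2 hx0
    exact_mod_cast h2
  -- one block
  have hblk : ∀ x, n0 ≤ x → len x ∣ x →
      |(len x : ℝ) - 2 * er (fun j => y (x + j)) (fun j => z (x + j)) (len x)| * 2 ^ J ≤ len x := by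
    intro x hx hd
    obtain ⟨i, hi, hxi⟩ := start_eq (h32 x hx) hd
    obtain ⟨h1, h2⟩ := jx_spec (h32 x hx)
    have h3 := hq (jx x) (le_trans hJ (hjx x hx)) (Nat.log 2 x) i h1 h2 hi
    rw [← hxi] at h3
    have h4 : eb cw y (jx x) x (2 ^ (Nat.log 2 x - jx x)) (q (jx x)) =
        er (fun j => y (x + j)) (fun j => z (x + j)) (len x) := by
      unfold eb
      refine er_congr (fun _ _ => rfl) ?_
      intro t ht
      have h5 : jx (x + t) = jx x := by
        have := log_block (h32 x hx) hd ht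
        unfold jx; rw [this]
      show tf (cw (jx x) (q (jx x))) ((x + t) % ell (jx x)) = bit (AA cw q (x + t))
      unfold tf AA
      rw [h5]
    rw [h4, bal_iff_abs] at h3
    have h5 : ((2 ^ (Nat.log 2 x - jx x) : ℕ) : ℝ) = (len x : ℝ) := rfl
    rw [h5] at h3
    refine le_trans (mul_le_mul_of_nonneg_left ?_ (abs_nonneg _)) h3
    push_cast
    exact pow_le_pow_right₀ (by norm_num) (hjx x hx)
  have hat : ∀ t, n0 ≤ at' n0 t := fun t => le_trans (Nat.le_add_right _ _) (at_ge n0 t)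
  have hinv : ∀ t, len (at' n0 t) ∣ at' n0 t := by
    intro t
    induction t with
    | zero =>
      show len n0 ∣ n0
      unfold len
      rw [hlog0]
      exact pow_dvd_pow 2 (Nat.sub_le _ _)
    | succ t ih => exact next_start (h32 _ (hat t)) ih
  have hD : ∀ t, |((at' n0 t : ℕ) : ℝ) - 2 * er y z (at' n0 t)| * 2 ^ J ≤
      n0 * 2 ^ J + at' n0 t := by
    intro t
    induction t with
    | zero =>
      show |(n0 : ℝ) - 2 * er y z n0| * 2 ^ J ≤ n0 * 2 ^ J + n0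
      have h1 : (er y z n0 : ℝ) ≤ n0 := by exact_mod_cast er_le y z n0
      have h2 : (0 : ℝ) ≤ er y z n0 := Nat.cast_nonneg _
      have h3 : |(n0 : ℝ) - 2 * er y z n0| ≤ n0 := by
        rw [abs_le]; constructor <;> linarith
      have h4 : (0 : ℝ) ≤ n0 := Nat.cast_nonneg _
      nlinarith [mul_le_mul_of_nonneg_right h3 (show (0 : ℝ) ≤ 2 ^ J by positivity)]
    | succ t ih =>
      have h1 := hblk (at' n0 t) (hat t) (hinv t)
      show |((at' n0 t + len (at' n0 t) : ℕ) : ℝ) - 2 * er y z (at' n0 t + len (at' n0 t))| * 2 ^ J ≤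
        n0 * 2 ^ J + ((at' n0 t + len (at' n0 t) : ℕ) : ℝ)
      rw [er_shift']
      push_cast
      have h2 : (at' n0 t : ℝ) + len (at' n0 t) - 2 * (er y z (at' n0 t) +
          er (fun j => y (at' n0 t + j)) (fun j => z (at' n0 t + j)) (len (at' n0 t))) =
          ((at' n0 t : ℝ) - 2 * er y z (at' n0 t)) + ((len (at' n0 t) : ℝ) -
          2 * er (fun j => y (at' n0 t + j)) (fun j => z (at' n0 t + j)) (len (at' n0 t))) := by ring
      rw [h2]
      have h3 := abs_add_le ((at' n0 t : ℝ) - 2 * er y z (at' n0 t)) ((len (at' n0 t) : ℝ) -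
          2 * er (fun j => y (at' n0 t + j)) (fun j => z (at' n0 t + j)) (len (at' n0 t)))
      have h4 := mul_le_mul_of_nonneg_right h3 (show (0 : ℝ) ≤ 2 ^ J by positivity)
      rw [add_mul] at h4
      linarith
  refine ⟨n0, fun n hn => ?_⟩
  -- find the block of `n`
  have hex : ∃ t, n < at' n0 t :=
    ⟨n + 1, lt_of_lt_of_le (lt_of_lt_of_le (Nat.lt_succ_self n) (Nat.le_add_left _ _))
      (at_ge n0 (n + 1))⟩
  classical
  obtain ⟨t, ht⟩ : ∃ t, Nat.find hex = t + 1 := by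
    refine Nat.exists_eq_succ_of_ne_zero ?_
    intro h0
    have := Nat.find_spec hex
    rw [h0] at this
    exact absurd hn (not_le.2 this)
  have h1 : n < at' n0 (t + 1) := by rw [← ht]; exact Nat.find_spec hex
  have h2 : at' n0 t ≤ n := not_lt.1 (Nat.find_min hex (by omega))
  have h1' : n < at' n0 t + len (at' n0 t) := h1
  obtain ⟨m, rfl⟩ := Nat.exists_eq_add_of_le h2
  have hm : m ≤ len (at' n0 t) := by omega
  have h3 := hD t
  have h4 := hlen (at' n0 t) (hat t)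
  have h5 : (er (fun j => y (at' n0 t + j)) (fun j => z (at' n0 t + j)) m : ℝ) ≤ m := by
    exact_mod_cast er_le _ _ m
  have h6 : (0 : ℝ) ≤ er (fun j => y (at' n0 t + j)) (fun j => z (at' n0 t + j)) m :=
    Nat.cast_nonneg _
  have h7 : |(m : ℝ) - 2 * er (fun j => y (at' n0 t + j)) (fun j => z (at' n0 t + j)) m| ≤ m := by
    rw [abs_le]; constructor <;> linarith
  rw [er_shift']
  push_cast
  have h8 : (at' n0 t : ℝ) + m - 2 * (er y z (at' n0 t) +
      er (fun j => y (at' n0 t + j)) (fun j => z (at' n0 t + j)) m) =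
      ((at' n0 t : ℝ) - 2 * er y z (at' n0 t)) + ((m : ℝ) -
      2 * er (fun j => y (at' n0 t + j)) (fun j => z (at' n0 t + j)) m) := by ring
  rw [h8]
  have h9 := abs_add_le ((at' n0 t : ℝ) - 2 * er y z (at' n0 t)) ((m : ℝ) -
      2 * er (fun j => y (at' n0 t + j)) (fun j => z (at' n0 t + j)) m)
  have h10 := mul_le_mul_of_nonneg_right h9 (show (0 : ℝ) ≤ 2 ^ J by positivity)
  rw [add_mul] at h10
  have h11 : (m : ℝ) * 2 ^ J ≤ len (at' n0 t) * 2 ^ J :=
    mul_le_mul_of_nonneg_right (by exact_mod_cast hm) (by positivity)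
  have h12 := mul_le_mul_of_nonneg_right h7 (show (0 : ℝ) ≤ 2 ^ J by positivity)
  have h13 : (0 : ℝ) ≤ m := Nat.cast_nonneg _
  linarith

/-- the density of errors tends to one half -/
theorem tendsto {cw : ℕ → ℕ → List Bool} {y q : ℕ → ℕ} {j1 : ℕ}
    (hq : ∀ j, j1 ≤ j → ∀ lam i, 2 ^ (j + 5) ≤ lam →
      lam < 2 ^ (j + 6) → i < 2 ^ j →
      bal (2 ^ j) (2 ^ (lam - j))
        (eb cw y j ((2 ^ j + i) * 2 ^ (lam - j)) (2 ^ (lam - j)) (q j)) = true) :
    Filter.Tendsto (fun n : ℕ => ((n : ℝ) - er y (fun x => bit (AA cw q x)) n) / n) Filter.atTop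
      (nhds (1 / 2)) := by
  rw [Metric.tendsto_atTop]
  intro ε hε
  obtain ⟨K, hK⟩ := exists_pow_lt_of_lt_one (show (0 : ℝ) < ε / 2 by positivity)
    (show (1 / 2 : ℝ) < 1 by norm_num)
  let J : ℕ := max j1 K
  obtain ⟨n0, hn0⟩ := chain hq J (le_max_left _ _)
  obtain ⟨N, hN⟩ := exists_nat_gt (2 * (n0 : ℝ) / ε)
  refine ⟨max (max n0 N) 1, fun n hn => ?_⟩
  have h1 : n0 ≤ n := le_trans (le_trans (le_max_left _ _) (le_max_left _ _)) hn
  have h2 : N ≤ n := le_trans (le_trans (le_max_right _ _) (le_max_left _ _)) hn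
  have h3 : 1 ≤ n := le_trans (le_max_right _ _) hn
  have hnpos : (0 : ℝ) < n := by exact_mod_cast h3
  have h4 := hn0 n h1
  set E : ℝ := ((er y (fun x => bit (AA cw q x)) n : ℕ) : ℝ) with hE
  rw [Real.dist_eq]
  have h5 : ((n : ℝ) - E) / n - 1 / 2 = ((n : ℝ) - 2 * E) / (2 * n) := by
    field_simp
    ring
  rw [h5, abs_div, abs_of_pos (show (0 : ℝ) < 2 * n by positivity), div_lt_iff₀ (by positivity)]
  have h6 : (1 : ℝ) / 2 ^ J < ε / 2 := by
    refine lt_of_le_of_lt ?_ hK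
    rw [one_div_pow]
    refine one_div_le_one_div_of_le (by positivity) ?_
    exact pow_le_pow_right₀ (by norm_num) (le_max_right _ _)
  have hJpos : (0 : ℝ) < 2 ^ J := by positivity
  have h7 : |(n : ℝ) - 2 * E| ≤ n0 + 2 * n * (1 / 2 ^ J) := by
    have e1 : (n0 : ℝ) + 2 * n * (1 / 2 ^ J) = (n0 * 2 ^ J + 2 * n) / 2 ^ J := by
      field_simp
    rw [e1, le_div_iff₀ hJpos]
    exact h4
  have h8 : 2 * (n0 : ℝ) / ε < n := lt_of_lt_of_le hN (by exact_mod_cast h2)
  rw [div_lt_iff₀ hε] at h8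
  have h9 : 2 * (n : ℝ) * (1 / 2 ^ J) < 2 * n * (ε / 2) :=
    mul_lt_mul_of_pos_left h6 (by positivity)
  nlinarith

end Pool.Agent.V11258.F1
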