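import Pool.Agent.H448R3.GV

set_option autoImplicit false

/-! Existence of many almost orthogonal binary words; lists. -/

namespace Pool.Agent.V11258.F1

open Finset Pool.Agent.H448R3

/-- exponential weight -/
theorem sum_exp {N : ℕ} (x : Fin N → Bool) (t : ℝ) :
    ∑ y : Fin N → Bool, Real.exp (t * (2 * (agc x y : ℝ) - N)) =
      (Real.exp t + Real.exp (-t)) ^ N := by
  have h1 : ∀ y : Fin N → Bool, Real.exp (t * (2 * (agc x y : ℝ) - N)) =
      ∏ i : Fin N, (if x i = y i then Real.exp t else Real.exp (-t)) := by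
    intro y
    have h2 : t * (2 * (agc x y : ℝ) - N) = ∑ i : Fin N, (if x i = y i then t else -t) := by
      have h3 : (agc x y : ℝ) = ∑ i : Fin N, (if x i = y i then (1 : ℝ) else 0) := by
        unfold agc
        rw [Finset.card_filter]
        push_cast
        rfl
      have h4 : (N : ℝ) = ∑ _i : Fin N, (1 : ℝ) := by simp
      rw [h3]
      conv_lhs => rw [h4]
      rw [Finset.mul_sum, ← Finset.sum_sub_distrib, Finset.mul_sum]
      refine Finset.sum_congr rfl fun i _ => ?_
      by_cases h : x i = y i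
      · simp only [h, if_true]; ring
      · simp only [h, if_false]; ring
    rw [h2, Real.exp_sum]
    refine Finset.prod_congr rfl fun i _ => ?_
    by_cases h : x i = y i
    · simp [h]
    · simp [h]
  simp_rw [h1]
  have h2 := Finset.prod_univ_sum (fun _ : Fin N => (univ : Finset Bool))
    (fun (i : Fin N) (b : Bool) => (if x i = b then Real.exp t else Real.exp (-t) : ℝ))
  rw [Fintype.piFinset_univ] at h2
  rw [← h2]
  have h3 : ∀ i : Fin N, ∑ b : Bool, (if x i = b then Real.exp t else Real.exp (-t) : ℝ) =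
      Real.exp t + Real.exp (-t) := by
    intro i
    cases x i
    · simp [add_comm]
    · simp
  simp_rw [h3]
  simp

/-- the words far from orthogonal to `x` -/
noncomputable def bad {N : ℕ} (x : Fin N → Bool) (K : ℕ) : Finset (Fin N → Bool) := by
  classical
  exact univ.filter fun y => (N : ℝ) < |2 * (agc x y : ℝ) - N| * K

theorem mem_bad {N : ℕ} {x y : Fin N → Bool} {K : ℕ} :
    y ∈ bad x K ↔ (N : ℝ) < |2 * (agc x y : ℝ) - N| * K := by
  unfold bad
  simp

theorem card_bad {N K : ℕ} (hK : 0 < K) (x : Fin N → Bool) :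
    ((bad x K).card : ℝ) * Real.exp (N / (2 * K ^ 2)) ≤ 2 * 2 ^ N := by
  have hK' : (0 : ℝ) < K := by exact_mod_cast hK
  set η : ℝ := 1 / K with hη
  have hη0 : 0 < η := by positivity
  have h1 : ∀ y ∈ bad x K, Real.exp (η ^ 2 * N) ≤
      Real.exp (η * (2 * (agc x y : ℝ) - N)) + Real.exp (-η * (2 * (agc x y : ℝ) - N)) := by
    intro y hy
    have h2 := mem_bad.1 hy
    have h3 : η * N ≤ |2 * (agc x y : ℝ) - N| := by
      rw [hη, div_mul_eq_mul_div, one_mul, div_le_iff₀ hK']
      exact h2.le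
    have h4 : η ^ 2 * N ≤ η * |2 * (agc x y : ℝ) - N| := by
      rw [sq, mul_assoc]
      exact mul_le_mul_of_nonneg_left h3 hη0.le
    rcases abs_cases (2 * (agc x y : ℝ) - N) with ⟨h5, _⟩ | ⟨h5, _⟩
    · rw [h5] at h4
      have := Real.exp_le_exp.2 h4
      have := Real.exp_pos (-η * (2 * (agc x y : ℝ) - N))
      linarith
    · rw [h5] at h4
      have h6 : η * -(2 * (agc x y : ℝ) - N) = -η * (2 * (agc x y : ℝ) - N) := by ring
      rw [h6] at h4
      have := Real.exp_le_exp.2 h4
      have := Real.exp_pos (η * (2 * (agc x y : ℝ) - N))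
      linarith
  have h2 : ((bad x K).card : ℝ) * Real.exp (η ^ 2 * N) ≤
      (Real.exp η + Real.exp (-η)) ^ N + (Real.exp (-η) + Real.exp (- -η)) ^ N := by
    rw [← sum_exp x η, ← sum_exp x (-η), ← Finset.sum_add_distrib, ← nsmul_eq_mul]
    refine (Finset.card_nsmul_le_sum (bad x K) _ _ h1).trans ?_
    refine Finset.sum_le_sum_of_subset_of_nonneg (Finset.subset_univ _) ?_
    intro i _ _
    positivity
  have h3 : Real.exp η + Real.exp (-η) ≤ 2 * Real.exp (η ^ 2 / 2) := by
    have := Real.cosh_le_exp_half_sq η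
    rw [Real.cosh_eq] at this
    linarith
  have h4 : (Real.exp η + Real.exp (-η)) ^ N ≤ 2 ^ N * Real.exp (N * (η ^ 2 / 2)) := by
    refine (pow_le_pow_left₀ (by positivity) h3 N).trans (le_of_eq ?_)
    rw [mul_pow, Real.exp_nat_mul]
  have h5 : Real.exp (-η) + Real.exp (- -η) = Real.exp η + Real.exp (-η) := by
    rw [neg_neg, add_comm]
  rw [h5] at h2
  have h6 : ((bad x K).card : ℝ) * Real.exp (η ^ 2 * N) ≤ 2 * 2 ^ N * Real.exp (N * (η ^ 2 / 2)) := by
    linarith
  have h7 : η ^ 2 * N = N / (2 * K ^ 2) + N * (η ^ 2 / 2) := by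
    rw [hη]
    field_simp
    ring
  rw [h7, Real.exp_add, ← mul_assoc] at h6
  exact le_of_mul_le_mul_right h6 (Real.exp_pos _)

theorem card_bad_lt {N K p : ℕ} (hK : 0 < K) (h : (p + 1) * (2 * K ^ 2) ≤ N) (x : Fin N → Bool) :
    (bad x K).card * 2 ^ p < 2 ^ N := by
  have h1 := card_bad hK x
  have hK' : (0 : ℝ) < K := by exact_mod_cast hK
  have h2 : ((p + 1 : ℕ) : ℝ) ≤ N / (2 * K ^ 2) := by
    rw [le_div_iff₀ (by positivity)]
    exact_mod_cast h
  have h3 : (2 : ℝ) ^ (p + 1) < Real.exp (N / (2 * K ^ 2)) := by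
    refine lt_of_lt_of_le ?_ (Real.exp_le_exp.2 h2)
    have h4 : (2 : ℝ) < Real.exp 1 := lt_trans (by norm_num) Real.exp_one_gt_d9
    calc (2 : ℝ) ^ (p + 1) < (Real.exp 1) ^ (p + 1) :=
          pow_lt_pow_left₀ h4 (by norm_num) (by omega)
      _ = Real.exp ((p + 1 : ℕ) : ℝ) := by rw [← Real.exp_nat_mul, mul_one]
  rcases Nat.eq_zero_or_pos (bad x K).card with h0 | hpos
  · rw [h0, zero_mul]; positivity
  · have hpos' : (0 : ℝ) < (bad x K).card := by exact_mod_cast hpos
    have h5 : ((bad x K).card : ℝ) * 2 ^ (p + 1) < 2 * 2 ^ N :=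
      lt_of_lt_of_le (mul_lt_mul_of_pos_left h3 hpos') h1
    have h6 : ((bad x K).card : ℝ) * 2 ^ p < 2 ^ N := by
      rw [pow_succ] at h5
      linarith
    exact_mod_cast h6

theorem agc_comm {N : ℕ} (a b : Fin N → Bool) : agc a b = agc b a := by
  unfold agc
  congr 1
  ext i
  simp [eq_comm]

theorem greedy2 {N K p : ℕ} (hK : 0 < K) (h : (p + 1) * (2 * K ^ 2) ≤ N) (n : ℕ) (hn : n ≤ 2 ^ p) :
    ∃ c : ℕ → (Fin N → Bool), ∀ i j, i < n → j < n → i ≠ j → c j ∉ bad (c i) K := by
  classical
  induction n with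
  | zero => exact ⟨fun _ _ => false, fun i j hi => absurd hi (Nat.not_lt_zero i)⟩
  | succ n ih =>
    obtain ⟨c, hc⟩ := ih (by omega)
    have hex : ∃ y : Fin N → Bool, ∀ i < n, y ∉ bad (c i) K := by
      by_contra hcon
      push Not at hcon
      have h1 : (univ : Finset (Fin N → Bool)) ⊆
          (Finset.range n).biUnion fun i => bad (c i) K := by
        intro y _
        obtain ⟨i, hi, hy⟩ := hcon y
        exact Finset.mem_biUnion.2 ⟨i, Finset.mem_range.2 hi, hy⟩
      have h2 := Finset.card_le_card h1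
      have h3 : (((Finset.range n).biUnion fun i => bad (c i) K).card) ≤
          ∑ i ∈ Finset.range n, (bad (c i) K).card := Finset.card_biUnion_le
      rw [Finset.card_univ, Fintype.card_fun, Fintype.card_fin, Fintype.card_bool] at h2
      have h4 : (∑ i ∈ Finset.range n, (bad (c i) K).card) * 2 ^ p ≤ n * 2 ^ N := by
        rw [Finset.sum_mul]
        calc ∑ i ∈ Finset.range n, (bad (c i) K).card * 2 ^ p ≤ ∑ _i ∈ Finset.range n, 2 ^ N :=
              Finset.sum_le_sum fun i _ => (card_bad_lt hK h (c i)).le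
          _ = n * 2 ^ N := by simp
      have h5 : 2 ^ N * 2 ^ p ≤ n * 2 ^ N := le_trans (Nat.mul_le_mul_right _ (h2.trans h3)) h4
      have h6 : n * 2 ^ N < 2 ^ p * 2 ^ N := Nat.mul_lt_mul_of_pos_right (by omega) (by positivity)
      rw [Nat.mul_comm] at h5
      omega
    obtain ⟨y, hy⟩ := hex
    refine ⟨fun i => if i = n then y else c i, fun i j hi hj hij => ?_⟩
    by_cases h1 : i = n
    · subst h1
      have h2 : j ≠ i := fun h => hij h.symm
      simp only [if_true, if_neg h2]
      have h3 := hy j (by omega)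
      rw [mem_bad] at h3 ⊢
      rw [agc_comm]
      exact h3
    · by_cases h2 : j = n
      · subst h2
        simp only [if_true, if_neg h1]
        exact hy i (by omega)
      · simp only [if_neg h1, if_neg h2]
        exact hc i j (by omega) (by omega) hij

/-- `f` and `g` agree on half of the first `L` arguments, up to `L / (2 K)` -/
def bal (K L e : ℕ) : Bool :=
  (!decide (L * K + L < 2 * e * K)) && (!decide (2 * e * K + L < L * K))

theorem bal_iff {K L e : ℕ} : bal K L e = true ↔ 2 * e * K ≤ L * K + L ∧ L * K ≤ 2 * e * K + L := by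
  unfold bal
  simp

theorem bal_iff_abs {K L e : ℕ} : bal K L e = true ↔ |(L : ℝ) - 2 * e| * K ≤ L := by
  rw [bal_iff]
  have hK : (0 : ℝ) ≤ K := Nat.cast_nonneg _
  have h0 : |(L : ℝ) - 2 * e| * K = |((L : ℝ) - 2 * e) * K| := by
    rw [abs_mul, abs_of_nonneg hK]
  rw [h0, abs_le]
  constructor
  · rintro ⟨h1, h2⟩
    have h1' : (2 : ℝ) * e * K ≤ L * K + L := by exact_mod_cast h1
    have h2' : (L : ℝ) * K ≤ 2 * e * K + L := by exact_mod_cast h2
    constructor <;> nlinarith
  · rintro ⟨h1, h2⟩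
    have h1' : (2 : ℝ) * e * K ≤ L * K + L := by nlinarith
    have h2' : (L : ℝ) * K ≤ 2 * e * K + L := by nlinarith
    exact ⟨by exact_mod_cast h1', by exact_mod_cast h2'⟩

theorem exists_code2 {N K p : ℕ} (hK : 0 < K) (h : (p + 1) * (2 * K ^ 2) ≤ N) :
    ∃ c : ℕ → ℕ → Bool, ∀ m m', m < 2 ^ p → m' < 2 ^ p → m ≠ m' →
      bal K N (er (fun j => bit (c m j)) (fun j => bit (c m' j)) N) = true := by
  obtain ⟨c, hc⟩ := greedy2 hK h (2 ^ p) (le_refl _)
  refine ⟨fun m j => ofWord (c m) j, fun m m' hm hm' hne => ?_⟩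
  have h1 := hc m m' hm hm' hne
  have h2 := er_agc (c m) (c m')
  rw [mem_bad, not_lt] at h1
  rw [bal_iff_abs]
  have h3 : (agc (c m) (c m') : ℝ) =
      N - er (fun j => bit (ofWord (c m) j)) (fun j => bit (ofWord (c m') j)) N := by
    have : ((er (fun j => bit (ofWord (c m) j)) (fun j => bit (ofWord (c m') j)) N +
      agc (c m) (c m') : ℕ) : ℝ) = N := by rw [h2]
    push_cast at this
    linarith
  rw [h3] at h1
  have h4 : 2 * ((N : ℝ) - er (fun j => bit (ofWord (c m) j)) (fun j => bit (ofWord (c m') j)) N) - N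
      = N - 2 * er (fun j => bit (ofWord (c m) j)) (fun j => bit (ofWord (c m') j)) N := by ring
  rw [h4] at h1
  exact h1

theorem bal_comp {α : Type} [Primcodable α] {K L e : α → ℕ} (hK : Computable K)
    (hL : Computable L) (he : Computable e) : Computable fun a => bal (K a) (L a) (e a) := by
  have h1 : Computable fun a => 2 * e a * K a := cmul (cmul (Computable.const 2) he) hK
  have h2 : Computable fun a => L a * K a := cmul hL hK
  exact cand (cnot (clt (cadd h2 hL) h1)) (cnot (clt (cadd h1 hL) h2))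

/-- A computable family of codes of almost orthogonal words. -/
theorem exists_cw2 {ell NN KK : ℕ → ℕ} (hell : Computable ell) (hNN : Computable NN)
    (hKK : Computable KK) (hc : ∀ j, ∃ c : ℕ → ℕ → Bool, ∀ m m', m < NN j → m' < NN j → m ≠ m' →
      bal (KK j) (ell j) (er (fun x => bit (c m x)) (fun x => bit (c m' x)) (ell j)) = true) :
    ∃ cw : ℕ → ℕ → List Bool, Computable₂ cw ∧
    ∀ k m m', m < NN k → m' < NN k → m ≠ m' →
      bal (KK k) (ell k) (er (tf (cw k m)) (tf (cw k m')) (ell k)) = true := by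
  let q : ℕ → ℕ → Bool := fun k c =>
    ball (NN k) fun m => ball (NN k) fun m' =>
      (m == m') || bal (KK k) (ell k) (er
        (tf (((Encodable.decode (α := List (List Bool)) c).getD []).getD m []))
        (tf (((Encodable.decode (α := List (List Bool)) c).getD []).getD m' [])) (ell k))
  have hL : Computable fun c : ℕ => (Encodable.decode (α := List (List Bool)) c).getD [] :=
    Computable.option_getD Computable.decode (Computable.const [])
  have hq : Computable₂ q := by
    have h1 : Computable₂ fun (r : (ℕ × ℕ) × ℕ) (m' : ℕ) =>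
        ((r.2 == m') || bal (KK r.1.1) (ell r.1.1) (er
        (tf (((Encodable.decode (α := List (List Bool)) r.1.2).getD []).getD r.2 []))
        (tf (((Encodable.decode (α := List (List Bool)) r.1.2).getD []).getD m' []))
          (ell r.1.1))) := by
      have c1 : Computable fun s : ((ℕ × ℕ) × ℕ) × ℕ => s.1.2 := Computable.snd.comp Computable.fst
      have c2 : Computable fun s : ((ℕ × ℕ) × ℕ) × ℕ => s.2 := Computable.snd
      have c3 : Computable fun s : ((ℕ × ℕ) × ℕ) × ℕ => s.1.1.1 :=
        Computable.fst.comp (Computable.fst.comp Computable.fst)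
      have c4 : Computable fun s : ((ℕ × ℕ) × ℕ) × ℕ =>
          ((Encodable.decode (α := List (List Bool)) s.1.1.2).getD []) :=
        hL.comp (Computable.snd.comp (Computable.fst.comp Computable.fst))
      have c5 : Computable fun s : ((ℕ × ℕ) × ℕ) × ℕ =>
          ((Encodable.decode (α := List (List Bool)) s.1.1.2).getD []).getD s.1.2 [] :=
        (Primrec.list_getD []).to_comp.comp c4 c1
      have c6 : Computable fun s : ((ℕ × ℕ) × ℕ) × ℕ =>
          ((Encodable.decode (α := List (List Bool)) s.1.1.2).getD []).getD s.2 [] :=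
        (Primrec.list_getD []).to_comp.comp c4 c2
      have c7 := er_comp (tf_comp (c5.comp Computable.fst) Computable.snd).to₂
        (tf_comp (c6.comp Computable.fst) Computable.snd).to₂
        (hell.comp c3)
      exact cor (cbeqN c1 c2) (bal_comp (hKK.comp c3) (hell.comp c3) c7)
    have h2 : Computable₂ fun (r : ℕ × ℕ) (m : ℕ) => ball (NN r.1) fun m' =>
        ((m == m') || bal (KK r.1) (ell r.1) (er
        (tf (((Encodable.decode (α := List (List Bool)) r.2).getD []).getD m []))
        (tf (((Encodable.decode (α := List (List Bool)) r.2).getD []).getD m' []))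
          (ell r.1))) :=
      ball_comp (hNN.comp (Computable.fst.comp Computable.fst)) h1
    exact ball_comp (hNN.comp Computable.fst) h2
  have hex : ∀ k, ∃ c, q k c = true := by
    intro k
    obtain ⟨c, hc⟩ := hc k
    let L : List (List Bool) := (List.range (NN k)).map fun m => bseg (c m) (ell k)
    have hLm : ∀ m < NN k, L.getD m [] = bseg (c m) (ell k) := by
      intro m hm
      rw [List.getD_eq_getElem?_getD]
      simp [L, hm]
    refine ⟨Encodable.encode L, ?_⟩
    simp only [q, ball_iff, Encodable.encodek, Option.getD_some]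
    intro m hm m' hm'
    rw [hLm m hm, hLm m' hm']
    by_cases hmm : m = m'
    · simp [hmm]
    · have h1 := hc m m' hm hm' hmm
      have h2 : er (tf (bseg (c m) (ell k))) (tf (bseg (c m') (ell k))) (ell k) =
          er (fun j => bit (c m j)) (fun j => bit (c m' j)) (ell k) :=
        er_congr (fun j hj => tf_bseg _ hj) (fun j hj => tf_bseg _ hj)
      rw [h2, h1]
      simp
  obtain ⟨F, hF, hFs⟩ := search hq hex
  refine ⟨fun k m => ((Encodable.decode (α := List (List Bool)) (F k)).getD []).getD m [], ?_, ?_⟩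
  · exact (Primrec.list_getD []).to_comp.comp (hL.comp (hF.comp Computable.fst)) Computable.snd
  · intro k m m' hm hm' hne
    have h1 := hFs k
    simp only [q, ball_iff] at h1
    have h2 := h1 m hm m' hm'
    have h3 : (m == m') = false := by simp [hne]
    rw [h3, Bool.false_or] at h2
    exact h2

/-- the sign of a value -/
def sg (a : ℕ) : ℝ := if a = 0 then 1 else -1

theorem sg_mul {a b : ℕ} (ha : a ≤ 1) (hb : b ≤ 1) : sg a * sg b = if a = b then 1 else -1 := by
  unfold sg
  interval_cases a <;> interval_cases b <;> simp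

theorem sg_sq (a : ℕ) : sg a * sg a = 1 := by
  unfold sg
  split_ifs <;> norm_num

theorem sum_sg {f g : ℕ → ℕ} (hf : ∀ x, f x ≤ 1) (hg : ∀ x, g x ≤ 1) (L : ℕ) :
    ∑ x ∈ Finset.range L, sg (f x) * sg (g x) = (L : ℝ) - 2 * er f g L := by
  induction L with
  | zero => simp [er_zero]
  | succ L ih =>
    rw [Finset.sum_range_succ, ih, er_succ, sg_mul (hf L) (hg L)]
    by_cases h : f L = g L
    · simp only [h, if_true]; push_cast; ring
    · simp only [h, if_false]; push_cast; ring

/-- The list bound. -/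
theorem list_bound {y : ℕ → ℕ} (hy : ∀ x, y x ≤ 1) {v : ℕ → ℕ → ℕ} (hv : ∀ r x, v r x ≤ 1)
    {K L : ℕ} (hK : 0 < K) (hL : 0 < L) {S : Finset ℕ}
    (h1 : ∀ r ∈ S, ∀ s ∈ S, r ≠ s → bal (2 * K ^ 2) L (er (v r) (v s) L) = true)
    (h2 : ∀ r ∈ S, bal K L (er y (v r) L) = false) : S.card ≤ 2 * K ^ 2 := by
  classical
  have hK' : (0 : ℝ) < K := by exact_mod_cast hK
  have hL' : (0 : ℝ) < L := by exact_mod_cast hL
  let ip : ℕ → ℝ := fun r => ∑ x ∈ Finset.range L, sg (y x) * sg (v r x)
  let a : ℕ → ℝ := fun r => if 0 ≤ ip r then 1 else -1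
  have ha : ∀ r, a r * a r = 1 := by
    intro r
    simp only [a]
    split_ifs <;> norm_num
  have haip : ∀ r, a r * ip r = |ip r| := by
    intro r
    simp only [a]
    split_ifs with h
    · rw [one_mul, abs_of_nonneg h]
    · rw [abs_of_neg (not_le.1 h)]; ring
  have hbig : ∀ r ∈ S, (L : ℝ) / K ≤ a r * ip r := by
    intro r hr
    rw [haip, div_le_iff₀ hK']
    have h3 : ¬ (|(L : ℝ) - 2 * er y (v r) L| * K ≤ L) := by
      rw [← bal_iff_abs, h2 r hr]
      simp
    have h4 : ip r = (L : ℝ) - 2 * er y (v r) L := sum_sg hy (hv r) L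
    rw [h4]
    exact (not_le.1 h3).le
  have hsum : (S.card : ℝ) * (L / K) ≤ ∑ x ∈ Finset.range L, sg (y x) * ∑ r ∈ S, a r * sg (v r x) := by
    have h3 : ∑ x ∈ Finset.range L, sg (y x) * ∑ r ∈ S, a r * sg (v r x) = ∑ r ∈ S, a r * ip r := by
      simp only [ip, Finset.mul_sum]
      rw [Finset.sum_comm]
      refine Finset.sum_congr rfl fun r _ => Finset.sum_congr rfl fun x _ => ?_
      ring
    rw [h3, ← nsmul_eq_mul]
    exact Finset.card_nsmul_le_sum S _ _ hbig
  have hcs := Finset.sum_mul_sq_le_sq_mul_sq (Finset.range L) (fun x => sg (y x))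
    (fun x => ∑ r ∈ S, a r * sg (v r x))
  have h4 : ∑ x ∈ Finset.range L, sg (y x) ^ 2 = L := by
    simp only [sq, sg_sq]
    simp
  have h5 : ∑ x ∈ Finset.range L, (∑ r ∈ S, a r * sg (v r x)) ^ 2 =
      ∑ r ∈ S, ∑ s ∈ S, a r * a s * ((L : ℝ) - 2 * er (v r) (v s) L) := by
    have h6 : ∀ x, (∑ r ∈ S, a r * sg (v r x)) ^ 2 =
        ∑ r ∈ S, ∑ s ∈ S, a r * a s * (sg (v r x) * sg (v s x)) := by
      intro x
      rw [sq, Finset.sum_mul_sum]
      refine Finset.sum_congr rfl fun r _ => Finset.sum_congr rfl fun s _ => ?_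
      ring
    simp_rw [h6]
    rw [Finset.sum_comm]
    refine Finset.sum_congr rfl fun r _ => ?_
    rw [Finset.sum_comm]
    refine Finset.sum_congr rfl fun s _ => ?_
    rw [← Finset.mul_sum, sum_sg (hv r) (hv s)]
  have h7 : ∀ r ∈ S, ∑ s ∈ S, a r * a s * ((L : ℝ) - 2 * er (v r) (v s) L) ≤
      L + S.card * (L / (2 * K ^ 2)) := by
    intro r hr
    have h8 : ∀ s ∈ S, a r * a s * ((L : ℝ) - 2 * er (v r) (v s) L) ≤
        (if s = r then (L : ℝ) else 0) + L / (2 * K ^ 2) := by
      intro s hs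
      have hab : |a r * a s| = 1 := by
        simp only [a]
        split_ifs <;> simp
      by_cases hsr : s = r
      · subst hsr
        have h9 : er (v s) (v s) L = 0 := by
          have := er_const (f := v s) (g := v s) (Nat.zero_le L) (fun _ _ _ => rfl)
          rw [this, er_zero]
        rw [h9, ha, if_pos rfl]
        have : 0 ≤ (L : ℝ) / (2 * K ^ 2) := by positivity
        push_cast
        linarith
      · rw [if_neg hsr, zero_add]
        have h9 := bal_iff_abs.1 (h1 r hr s hs (fun h => hsr h.symm))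
        have h10 : |(L : ℝ) - 2 * er (v r) (v s) L| ≤ L / (2 * K ^ 2) := by
          rw [le_div_iff₀ (by positivity)]
          push_cast at h9
          exact h9
        calc a r * a s * ((L : ℝ) - 2 * er (v r) (v s) L)
            ≤ |a r * a s * ((L : ℝ) - 2 * er (v r) (v s) L)| := le_abs_self _
          _ = |(L : ℝ) - 2 * er (v r) (v s) L| := by rw [abs_mul, hab, one_mul]
          _ ≤ _ := h10
    refine (Finset.sum_le_sum h8).trans (le_of_eq ?_)
    rw [Finset.sum_add_distrib, Finset.sum_ite_eq' S r, if_pos hr, Finset.sum_const, nsmul_eq_mul]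
  have h8 : ∑ r ∈ S, ∑ s ∈ S, a r * a s * ((L : ℝ) - 2 * er (v r) (v s) L) ≤
      S.card * (L + S.card * (L / (2 * K ^ 2))) := by
    rw [← nsmul_eq_mul]
    exact Finset.sum_le_card_nsmul S _ _ h7
  rw [h4, h5] at hcs
  have h9 : ((S.card : ℝ) * (L / K)) ^ 2 ≤ L * (S.card * (L + S.card * (L / (2 * K ^ 2)))) := by
    refine le_trans (pow_le_pow_left₀ (by positivity) hsum 2) (hcs.trans ?_)
    exact mul_le_mul_of_nonneg_left h8 hL'.le
  rcases Nat.eq_zero_or_pos S.card with h0 | hpos
  · rw [h0]; positivity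
  · have hpos' : (0 : ℝ) < S.card := by exact_mod_cast hpos
    have h10 : (S.card : ℝ) ^ 2 * L ^ 2 / K ^ 2 ≤ L ^ 2 * S.card + S.card ^ 2 * L ^ 2 / (2 * K ^ 2) := by
      have e1 : ((S.card : ℝ) * (L / K)) ^ 2 = (S.card : ℝ) ^ 2 * L ^ 2 / K ^ 2 := by
        field_simp
      have e2 : (L : ℝ) * (S.card * (L + S.card * (L / (2 * K ^ 2)))) =
          L ^ 2 * S.card + S.card ^ 2 * L ^ 2 / (2 * K ^ 2) := by
        field_simp
      rw [← e1, ← e2]
      exact h9
    have h11 : (S.card : ℝ) ^ 2 * L ^ 2 / (2 * K ^ 2) ≤ L ^ 2 * S.card := by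
      have e3 : (S.card : ℝ) ^ 2 * L ^ 2 / K ^ 2 = S.card ^ 2 * L ^ 2 / (2 * K ^ 2) +
          S.card ^ 2 * L ^ 2 / (2 * K ^ 2) := by
        field_simp
        ring
      linarith
    rw [div_le_iff₀ (by positivity)] at h11
    have h12 : (S.card : ℝ) * (S.card * L ^ 2) ≤ (2 * K ^ 2) * (S.card * L ^ 2) := by nlinarith
    have h13 := le_of_mul_le_mul_right h12 (by positivity)
    exact_mod_cast h13

theorem er_periodic {f g : ℕ → ℕ} (l M : ℕ) :
    er (fun x => f (x % l)) (fun x => g (x % l)) (l * M) = M * er f g l := by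
  induction M with
  | zero => simp [er_zero]
  | succ M ih =>
    have hsh : ∀ (f g : ℕ → ℕ) (a m : ℕ), er f g (a + m) = er f g a +
        er (fun j => f (a + j)) (fun j => g (a + j)) m := by
      intro f g a m
      induction m with
      | zero => rfl
      | succ m ih => rw [← Nat.add_assoc, er_succ, er_succ, ih, Nat.add_assoc]
    rw [Nat.mul_succ, hsh, ih]
    have : er (fun j => (fun x => f (x % l)) (l * M + j)) (fun j => (fun x => g (x % l)) (l * M + j)) l
        = er f g l := by
      refine er_congr (fun j hj => ?_) (fun j hj => ?_)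
      · show f ((l * M + j) % l) = f j
        rw [Nat.mul_add_mod, Nat.mod_eq_of_lt hj]
      · show g ((l * M + j) % l) = g j
        rw [Nat.mul_add_mod, Nat.mod_eq_of_lt hj]
    rw [this]
    ring

end Pool.Agent.V11258.F1
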