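import Pool.Agent.V11258.F1.Code
import Pool.Agent.V11258.IOE.Round

set_option autoImplicit false

/-! The lists of unbalanced codewords, and their evasion. -/

namespace Pool.Agent.V11258.F1

open Pool.Agent.Helper743 Pool.Agent.H448R3 Pool.Agent.V11258.IOE

/-- the bound of the mass problem -/
def GG (s : ℕ) : ℕ := 2 ^ 4 ^ (s + 1)
/-- the base on level `j` -/
def BB (j : ℕ) : ℕ := 2 ^ 4 ^ 2 ^ (j + 2)
/-- the logarithm of the number of codewords -/
def pp (j : ℕ) : ℕ := 2 ^ (j + 4) * 4 ^ 2 ^ (j + 2)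
/-- the number of codewords -/
def NN (j : ℕ) : ℕ := 2 ^ pp j
/-- the length of the codewords -/
def ell (j : ℕ) : ℕ := 2 ^ 2 ^ (j + 4)

theorem NN_eq (j : ℕ) : NN j = (BB j ^ 2 ^ (j + 1)) ^ (7 + 1) := by
  unfold NN BB pp
  rw [← pow_mul, ← pow_mul]
  congr 1
  ring

theorem pow4 (m : ℕ) : (4 : ℕ) ^ m = 2 ^ (2 * m) := by rw [pow_mul]; norm_num

theorem lin_le (j : ℕ) : 5 * j + 8 ≤ 2 ^ (j + 3) := by
  have : j < 2 ^ j := Nat.lt_two_pow_self
  have h : 2 ^ (j + 3) = 8 * 2 ^ j := by ring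
  omega

theorem param (j : ℕ) : (pp j + 1) * (2 * (2 * (2 ^ j) ^ 2) ^ 2) ≤ ell j := by
  unfold pp ell
  have h1 : 2 ^ (j + 4) * 4 ^ 2 ^ (j + 2) = 2 ^ (j + 4 + 2 ^ (j + 3)) := by
    rw [pow4, ← pow_add]
    congr 1
    ring
  have h2 : 2 * (2 * (2 ^ j) ^ 2) ^ 2 = 2 ^ (4 * j + 3) := by ring
  rw [h1, h2]
  have h3 : 2 ^ (j + 4 + 2 ^ (j + 3)) + 1 ≤ 2 ^ (j + 5 + 2 ^ (j + 3)) := by
    have : 2 ^ (j + 5 + 2 ^ (j + 3)) = 2 ^ (j + 4 + 2 ^ (j + 3)) + 2 ^ (j + 4 + 2 ^ (j + 3)) := by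
      ring
    rw [this]
    have : 0 < 2 ^ (j + 4 + 2 ^ (j + 3)) := by positivity
    omega
  refine le_trans (Nat.mul_le_mul_right _ h3) ?_
  rw [← pow_add]
  refine Nat.pow_le_pow_right (by norm_num) ?_
  have h4 := lin_le j
  have h5 : 2 ^ (j + 4) = 2 ^ (j + 3) + 2 ^ (j + 3) := by ring
  omega

theorem BB_comp : Computable BB :=
  pow2_comp.comp (pow4_comp.comp (pow2_comp.comp (cadd Computable.id (Computable.const 2))))
theorem pp_comp : Computable pp :=
  cmul (pow2_comp.comp (cadd Computable.id (Computable.const 4)))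
    (pow4_comp.comp (pow2_comp.comp (cadd Computable.id (Computable.const 2))))
theorem NN_comp : Computable NN := pow2_comp.comp pp_comp
theorem ell_comp : Computable ell :=
  pow2_comp.comp (pow2_comp.comp (cadd Computable.id (Computable.const 4)))
theorem KK_comp : Computable fun j : ℕ => 2 * (2 ^ j) ^ 2 :=
  cmul (Computable.const 2) (cpow pow2_comp (Computable.const 2))

/-- the codes -/
theorem exists_cw3 : ∃ cw : ℕ → ℕ → List Bool, Computable₂ cw ∧
    ∀ k m m', m < NN k → m' < NN k → m ≠ m' →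
      bal (2 * (2 ^ k) ^ 2) (ell k) (er (tf (cw k m)) (tf (cw k m')) (ell k)) = true := by
  refine exists_cw2 ell_comp NN_comp KK_comp ?_
  intro j
  exact exists_code2 (K := 2 * (2 ^ j) ^ 2) (by positivity) (param j)

theorem tf_le (τ : List Bool) (x : ℕ) : tf τ x ≤ 1 := by
  unfold tf bit
  cases (List.getD _ _ false) <;> simp

/-- the number of errors on a block -/
def eb (cw : ℕ → ℕ → List Bool) (y : ℕ → ℕ) (j a L r : ℕ) : ℕ :=
  er (fun x => y (a + x)) (fun x => tf (cw j r) ((a + x) % ell j)) L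

/-- indicator of an unbalanced codeword -/
def ob (cw : ℕ → ℕ → List Bool) (y : ℕ → ℕ) (j a L r : ℕ) : ℕ :=
  bif bal (2 ^ j) L (eb cw y j a L r) then 0 else 1

/-- the search for the `k`-th unbalanced codeword -/
def lkF (cw : ℕ → ℕ → List Bool) (y : ℕ → ℕ) (j a L k r : ℕ) : Option ℕ :=
  bif (ob cw y j a L r == 1) && (cnt (ob cw y j a L) 0 r == k) then some (Nat.pair r 1) else none

/-- group of an item -/
def gr (z : ℕ) : ℕ := (Nat.log 2 z - 6) / 4
/-- size of lists -/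
def kp (j : ℕ) : ℕ := 2 * (2 ^ j) ^ 2
/-- exponent of the length -/
def ex (z : ℕ) : ℕ := z / kp (gr z) / 2 ^ gr z - gr z
/-- start of the block -/
def st (z : ℕ) : ℕ := (2 ^ gr z + z / kp (gr z) % 2 ^ gr z) * 2 ^ ex z

/-- the items -/
def WW (cw : ℕ → ℕ → List Bool) (y : ℕ → ℕ) (z : ℕ) : ℕ :=
  (fs (lkF cw y (gr z) (st z) (2 ^ ex z) (z % kp (gr z))) (NN (gr z))).getD 0

theorem gr_comp : Computable gr :=
  cdiv (csub log2_comp (Computable.const 6)) (Computable.const 4)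
theorem kp_comp : Computable kp := KK_comp
theorem ex_comp : Computable ex :=
  csub (cdiv (cdiv Computable.id (kp_comp.comp gr_comp)) (pow2_comp.comp gr_comp)) gr_comp
theorem st_comp : Computable st :=
  cmul (cadd (pow2_comp.comp gr_comp) (cmod (cdiv Computable.id (kp_comp.comp gr_comp))
    (pow2_comp.comp gr_comp))) (pow2_comp.comp ex_comp)

theorem eb_congr {cw : ℕ → ℕ → List Bool} {y y' : ℕ → ℕ} {j a L r : ℕ}
    (h : ∀ x < a + L, y x = y' x) : eb cw y j a L r = eb cw y' j a L r := by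
  unfold eb
  exact er_congr (fun x hx => h _ (by omega)) (fun _ _ => rfl)

theorem ob_congr {cw : ℕ → ℕ → List Bool} {y y' : ℕ → ℕ} {j a L r : ℕ}
    (h : ∀ x < a + L, y x = y' x) : ob cw y j a L r = ob cw y' j a L r := by
  unfold ob
  rw [eb_congr h]

theorem lkF_congr {cw : ℕ → ℕ → List Bool} {y y' : ℕ → ℕ} {j a L k r : ℕ}
    (h : ∀ x < a + L, y x = y' x) : lkF cw y j a L k r = lkF cw y' j a L k r := by
  unfold lkF
  rw [ob_congr h, cnt_congr (fun r' _ => ob_congr h)]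

theorem ob_comp {α : Type} [Primcodable α] {cw : ℕ → ℕ → List Bool} (hcw : Computable₂ cw)
    {σ : α → List ℕ} {z r : α → ℕ} (hσ : Computable σ) (hz : Computable z) (hr : Computable r) :
    Computable fun a => ob cw (fun j => (σ a).getD j 0) (gr (z a)) (st (z a)) (2 ^ ex (z a)) (r a) := by
  have g1 : Computable₂ fun (a : α) (x : ℕ) => (σ a).getD (st (z a) + x) 0 :=
    (Primrec.list_getD 0).to_comp.comp (hσ.comp Computable.fst)
      (cadd ((st_comp.comp hz).comp Computable.fst) Computable.snd)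
  have g2 : Computable₂ fun (a : α) (x : ℕ) =>
      tf (cw (gr (z a)) (r a)) ((st (z a) + x) % ell (gr (z a))) :=
    tf_comp ((hcw.comp (gr_comp.comp hz) hr).comp Computable.fst)
      (cmod (cadd ((st_comp.comp hz).comp Computable.fst) Computable.snd)
        ((ell_comp.comp (gr_comp.comp hz)).comp Computable.fst))
  have g3 : Computable fun a =>
      eb cw (fun j => (σ a).getD j 0) (gr (z a)) (st (z a)) (2 ^ ex (z a)) (r a) :=
    er_comp g1 g2 (pow2_comp.comp (ex_comp.comp hz))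
  exact Computable.cond (bal_comp (pow2_comp.comp (gr_comp.comp hz))
    (pow2_comp.comp (ex_comp.comp hz)) g3) (Computable.const 0) (Computable.const 1)

theorem lk_comp {cw : ℕ → ℕ → List Bool} (hcw : Computable₂ cw) :
    Computable₂ fun (s : List ℕ × ℕ) (r : ℕ) =>
      lkF cw (fun j => s.1.getD j 0) (gr s.2) (st s.2) (2 ^ ex s.2) (s.2 % kp (gr s.2)) r := by
  have z3 : Computable fun s : (List ℕ × ℕ) × ℕ => s.1.2 :=
    Computable.snd.comp Computable.fst
  have z4 : Computable fun s : ((List ℕ × ℕ) × ℕ) × ℕ => s.1.1.2 :=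
    z3.comp Computable.fst
  have g4 : Computable₂ fun (s : (List ℕ × ℕ) × ℕ) (r : ℕ) =>
      ob cw (fun j => s.1.1.getD j 0) (gr s.1.2) (st s.1.2) (2 ^ ex s.1.2) r :=
    ob_comp hcw (σ := fun s : ((List ℕ × ℕ) × ℕ) × ℕ => s.1.1.1)
      (z := fun s : ((List ℕ × ℕ) × ℕ) × ℕ => s.1.1.2) (r := fun s => s.2)
      (Computable.fst.comp (Computable.fst.comp Computable.fst)) z4 Computable.snd
  have g5 : Computable fun s : (List ℕ × ℕ) × ℕ =>
      ob cw (fun j => s.1.1.getD j 0) (gr s.1.2) (st s.1.2) (2 ^ ex s.1.2) s.2 :=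
    ob_comp hcw (σ := fun s : (List ℕ × ℕ) × ℕ => s.1.1)
      (z := fun s : (List ℕ × ℕ) × ℕ => s.1.2) (r := fun s => s.2)
      (Computable.fst.comp Computable.fst) z3 Computable.snd
  have g6 : Computable fun s : (List ℕ × ℕ) × ℕ =>
      cnt (ob cw (fun j => s.1.1.getD j 0) (gr s.1.2) (st s.1.2) (2 ^ ex s.1.2)) 0 s.2 :=
    cnt_comp g4 (Computable.const 0) Computable.snd
  have g8 : Computable fun s : (List ℕ × ℕ) × ℕ => s.1.2 % kp (gr s.1.2) :=
    cmod z3 (kp_comp.comp (gr_comp.comp z3))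
  have g9 : Computable fun s : (List ℕ × ℕ) × ℕ => some (Nat.pair s.2 1) :=
    Computable.option_some.comp (cpair Computable.snd (Computable.const 1))
  have g10 := cand (cbeqN g5 (Computable.const 1)) (cbeqN g6 g8)
  have g11 := Computable.cond g10 g9 (Computable.const none)
  exact g11

theorem WW_comp {cw : ℕ → ℕ → List Bool} (hcw : Computable₂ cw) :
    Computable₂ fun (σ : List ℕ) (z : ℕ) => WW cw (fun j => σ.getD j 0) z := by
  have h1 : Computable fun s : List ℕ × ℕ => NN (gr s.2) :=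
    NN_comp.comp (gr_comp.comp Computable.snd)
  have h2 := fs_comp (lk_comp hcw) h1
  have h3 := Computable.option_getD h2 (Computable.const 0)
  exact h3

theorem WW_pre (cw : ℕ → ℕ → List Bool) (y : ℕ → ℕ) (z : ℕ) :
    WW cw (fun j => (pre y (st z + 2 ^ ex z)).getD j 0) z = WW cw y z := by
  unfold WW
  have h1 : lkF cw (fun j => (pre y (st z + 2 ^ ex z)).getD j 0) (gr z) (st z) (2 ^ ex z)
      (z % kp (gr z)) = lkF cw y (gr z) (st z) (2 ^ ex z) (z % kp (gr z)) := by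
    funext r
    exact lkF_congr (fun x hx => pre_getD hx)
  rw [h1]

theorem WW_rec {O : Set (ℕ →. ℕ)} {cw : ℕ → ℕ → List Bool} (hcw : Computable₂ cw) {y : ℕ → ℕ}
    (hy : RecT O y) : RecT O (WW cw y) := by
  have hu : Computable fun z : ℕ => st z + 2 ^ ex z := cadd st_comp (pow2_comp.comp ex_comp)
  have h1 := tr_pre hy hu (WW_comp hcw)
  have h2 : (fun z => WW cw (fun j => (pre y (st z + 2 ^ ex z)).getD j 0) z) = WW cw y :=
    funext (WW_pre cw y)
  rw [← h2]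
  exact h1

/-- lower end of the items of group `j` -/
def lo (j : ℕ) : ℕ := 2 ^ (4 * j + 6)
/-- upper end of the items of group `j` -/
def hi (j : ℕ) : ℕ := 2 ^ (4 * j + 7)

theorem gr_eq {j z : ℕ} (h1 : lo j ≤ z) (h2 : z < hi j) : gr z = j := by
  unfold lo at h1
  unfold hi at h2
  have : 0 < 2 ^ (4 * j + 6) := by positivity
  have h3 : Nat.log 2 z = 4 * j + 6 :=
    (Nat.log_eq_iff (Or.inl (by omega))).2 ⟨h1, h2⟩
  unfold gr
  omega

/-- the item with given data -/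
theorem item {j lam i k : ℕ} (h1 : 2 ^ (j + 5) ≤ lam) (h2 : lam < 2 ^ (j + 6)) (hi' : i < 2 ^ j)
    (hk : k < kp j) : ∃ z, lo j ≤ z ∧ z < hi j ∧ gr z = j ∧ z % kp (gr z) = k ∧ ex z = lam - j ∧
      st z = (2 ^ j + i) * 2 ^ (lam - j) := by
  have hkp : 0 < kp j := by unfold kp; positivity
  have hp : 0 < 2 ^ j := by positivity
  have hz1 : lo j ≤ (lam * 2 ^ j + i) * kp j + k := by
    have e1 : lo j = 2 ^ (j + 5) * 2 ^ j * kp j := by unfold lo kp; ring
    rw [e1]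
    have := Nat.mul_le_mul_right (2 ^ j) h1
    have := Nat.mul_le_mul_right (kp j) (show 2 ^ (j + 5) * 2 ^ j ≤ lam * 2 ^ j + i by omega)
    omega
  have hz2 : (lam * 2 ^ j + i) * kp j + k < hi j := by
    have e1 : hi j = 2 ^ (j + 6) * 2 ^ j * kp j := by unfold hi kp; ring
    rw [e1]
    have h3 : (lam + 1) * 2 ^ j ≤ 2 ^ (j + 6) * 2 ^ j := Nat.mul_le_mul_right (2 ^ j) h2
    have h4 : (lam * 2 ^ j + i + 1) * kp j ≤ 2 ^ (j + 6) * 2 ^ j * kp j := by
      refine Nat.mul_le_mul_right (kp j) ?_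
      rw [Nat.add_mul, Nat.one_mul] at h3
      omega
    rw [Nat.add_mul (lam * 2 ^ j + i), Nat.one_mul] at h4
    omega
  have hg := gr_eq hz1 hz2
  have e1 : ((lam * 2 ^ j + i) * kp j + k) % kp j = k := by
    rw [Nat.mul_comm, Nat.mul_add_mod, Nat.mod_eq_of_lt hk]
  have e2 : ((lam * 2 ^ j + i) * kp j + k) / kp j = lam * 2 ^ j + i := by
    rw [Nat.mul_comm, Nat.mul_add_div hkp, Nat.div_eq_of_lt hk, Nat.add_zero]
  have e3 : (lam * 2 ^ j + i) % 2 ^ j = i := by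
    rw [Nat.mul_comm, Nat.mul_add_mod, Nat.mod_eq_of_lt hi']
  have e4 : (lam * 2 ^ j + i) / 2 ^ j = lam := by
    rw [Nat.mul_comm, Nat.mul_add_div hp, Nat.div_eq_of_lt hi', Nat.add_zero]
  refine ⟨_, hz1, hz2, hg, ?_, ?_, ?_⟩
  · rw [hg]; exact e1
  · unfold ex; rw [hg, e2, e4]
  · unfold st ex; rw [hg, e2, e3, e4]

theorem ell_dvd {j e : ℕ} (h : 2 ^ (j + 4) ≤ e) : ell j ∣ 2 ^ e := by
  unfold ell
  exact pow_dvd_pow 2 h

theorem le_lam {j lam : ℕ} (h1 : 2 ^ (j + 5) ≤ lam) : 2 ^ (j + 4) ≤ lam - j := by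
  have : j < 2 ^ j := Nat.lt_two_pow_self
  have e1 : 2 ^ (j + 5) = 32 * 2 ^ j := by ring
  have e2 : 2 ^ (j + 4) = 16 * 2 ^ j := by ring
  omega

/-- the list bound for the items -/
theorem cnt_ob {cw : ℕ → ℕ → List Bool} (hcode : ∀ k m m', m < NN k → m' < NN k → m ≠ m' →
      bal (2 * (2 ^ k) ^ 2) (ell k) (er (tf (cw k m)) (tf (cw k m')) (ell k)) = true)
    {y : ℕ → ℕ} (hy : ∀ x, y x ≤ 1) {j a L : ℕ} (hL : 0 < L) (hLd : ell j ∣ L) (had : ell j ∣ a)
    : cnt (ob cw y j a L) 0 (NN j) ≤ kp j := by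
  rw [cnt_card']
  have hv : ∀ r x, tf (cw j r) ((a + x) % ell j) ≤ 1 := fun r x => tf_le _ _
  refine list_bound (y := fun x => y (a + x)) (fun x => hy _)
    (v := fun r x => tf (cw j r) ((a + x) % ell j)) hv (K := 2 ^ j) (L := L) (by positivity) hL ?_ ?_
  · intro r hr s hs hrs
    have hr' := (Finset.mem_Ico.1 (Finset.mem_filter.1 hr).1).2
    have hs' := (Finset.mem_Ico.1 (Finset.mem_filter.1 hs).1).2
    have h1 := hcode j r s hr' hs' hrs
    obtain ⟨M, rfl⟩ := hLd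
    obtain ⟨a', rfl⟩ := had
    have h2 : er (fun x => tf (cw j r) ((ell j * a' + x) % ell j))
        (fun x => tf (cw j s) ((ell j * a' + x) % ell j)) (ell j * M) =
        M * er (tf (cw j r)) (tf (cw j s)) (ell j) := by
      rw [← er_periodic]
      refine er_congr (fun x _ => ?_) (fun x _ => ?_)
      · rw [Nat.mul_add_mod]
      · rw [Nat.mul_add_mod]
    rw [h2]
    rw [bal_iff] at h1 ⊢
    generalize er (tf (cw j r)) (tf (cw j s)) (ell j) = d at h1 ⊢
    constructor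
    · calc 2 * (M * d) * (2 * (2 ^ j) ^ 2) = M * (2 * d * (2 * (2 ^ j) ^ 2)) := by ring
        _ ≤ M * (ell j * (2 * (2 ^ j) ^ 2) + ell j) := Nat.mul_le_mul_left _ h1.1
        _ = _ := by ring
    · calc ell j * M * (2 * (2 ^ j) ^ 2) = M * (ell j * (2 * (2 ^ j) ^ 2)) := by ring
        _ ≤ M * (2 * d * (2 * (2 ^ j) ^ 2) + ell j) := Nat.mul_le_mul_left _ h1.2
        _ = _ := by ring
  · intro r hr
    have h1 := (Finset.mem_filter.1 hr).2
    unfold ob eb at h1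
    rcases hb : bal (2 ^ j) L (er (fun x => y (a + x)) (fun x => tf (cw j r) ((a + x) % ell j)) L)
      with _ | _
    · rfl
    · rw [hb] at h1
      exact absurd h1 (by simp)

/-- Main lemma: a computable choice of balanced codewords. -/
theorem choice {O : Set (ℕ →. ℕ)} (hno : ∀ f, RecT O f → f ∉ IOE.IOE GG)
    {cw : ℕ → ℕ → List Bool} (hcw : Computable₂ cw)
    (hcode : ∀ k m m', m < NN k → m' < NN k → m ≠ m' →
      bal (2 * (2 ^ k) ^ 2) (ell k) (er (tf (cw k m)) (tf (cw k m')) (ell k)) = true)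
    {y : ℕ → ℕ} (hy : ∀ x, y x ≤ 1) (hyO : RecT O y) :
    ∃ q : ℕ → ℕ, Computable q ∧ ∃ j1, ∀ j, j1 ≤ j → ∀ lam i, 2 ^ (j + 5) ≤ lam →
      lam < 2 ^ (j + 6) → i < 2 ^ j →
      bal (2 ^ j) (2 ^ (lam - j))
        (eb cw y j ((2 ^ j + i) * 2 ^ (lam - j)) (2 ^ (lam - j)) (q j)) = true := by
  have hlo : Computable lo :=
    pow2_comp.comp (cadd (cmul (Computable.const 4) Computable.id) (Computable.const 6))
  have hhi : Computable hi :=
    pow2_comp.comp (cadd (cmul (Computable.const 4) Computable.id) (Computable.const 7))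
  have hG : ∀ j, 0 ≤ j → ∀ i < 2 ^ (j + 1), GG (2 ^ (j + 1) + i) ≤ BB j := by
    intro j _ i hi
    unfold GG BB
    refine Nat.pow_le_pow_right (by norm_num) (Nat.pow_le_pow_right (by norm_num) ?_)
    have : 2 ^ (j + 2) = 2 ^ (j + 1) + 2 ^ (j + 1) := by ring
    omega
  have hcnt : ∀ j, 0 ≤ j → cnt (v2 (WW cw y)) (lo j) (hi j) < (2 ^ (j + 1) + 1) ^ (7 + 1) := by
    intro j _
    rw [cnt_card']
    refine lt_of_le_of_lt (Finset.card_filter_le _ _) ?_
    rw [Nat.card_Ico]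
    have e1 : hi j - lo j = 2 ^ (4 * j + 6) := by
      unfold hi lo
      have : 2 ^ (4 * j + 7) = 2 ^ (4 * j + 6) + 2 ^ (4 * j + 6) := by ring
      rw [this, Nat.add_sub_cancel]
    rw [e1]
    calc 2 ^ (4 * j + 6) ≤ 2 ^ ((j + 1) * (7 + 1)) := Nat.pow_le_pow_right (by norm_num) (by omega)
      _ = (2 ^ (j + 1)) ^ (7 + 1) := pow_mul _ _ _
      _ < _ := Nat.pow_lt_pow_left (Nat.lt_succ_self _) (by norm_num)
  obtain ⟨q, hq, j1, hj1⟩ := rounds BB_comp hlo hhi gr_comp (fun j x h1 h2 => gr_eq h1 h2)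
    (j0 := 0) hG hno 7 (WW_rec hcw hyO) hcnt
  refine ⟨q, hq, j1, ?_⟩
  intro j hj lam i hl1 hl2 hi'
  obtain ⟨hq1, hq2⟩ := hj1 j hj
  rw [← NN_eq] at hq1
  by_contra hcon
  have hob : ob cw y j ((2 ^ j + i) * 2 ^ (lam - j)) (2 ^ (lam - j)) (q j) = 1 := by
    unfold ob
    rw [Bool.not_eq_true] at hcon
    rw [hcon]
    rfl
  have hell := le_lam hl1
  have hk : cnt (ob cw y j ((2 ^ j + i) * 2 ^ (lam - j)) (2 ^ (lam - j))) 0 (q j) < kp j :=
    lt_of_lt_of_le (cnt_lt hq1 (Nat.zero_le _) hob)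
      (cnt_ob hcode hy (by positivity) (ell_dvd hell) (Dvd.dvd.mul_left (ell_dvd hell) _))
  obtain ⟨z, hz1, hz2, hz3, hz4, hz5, hz6⟩ := item hl1 hl2 hi' hk
  have hW : WW cw y z = Nat.pair (q j) 1 := by
    unfold WW
    rw [hz4, hz6, hz5, hz3]
    have h1 : lkF cw y j ((2 ^ j + i) * 2 ^ (lam - j)) (2 ^ (lam - j))
        (cnt (ob cw y j ((2 ^ j + i) * 2 ^ (lam - j)) (2 ^ (lam - j))) 0 (q j)) (q j) =
        some (Nat.pair (q j) 1) := by
      unfold lkF
      rw [hob]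
      simp
    obtain ⟨w, hw⟩ := fs_exists hq1 h1
    rw [hw, Option.getD_some]
    obtain ⟨r, hr, hrw⟩ := fs_some hw
    unfold lkF at hrw
    rcases hb : (ob cw y j ((2 ^ j + i) * 2 ^ (lam - j)) (2 ^ (lam - j)) r == 1) &&
      (cnt (ob cw y j ((2 ^ j + i) * 2 ^ (lam - j)) (2 ^ (lam - j))) 0 r ==
      cnt (ob cw y j ((2 ^ j + i) * 2 ^ (lam - j)) (2 ^ (lam - j))) 0 (q j)) with _ | _
    · rw [hb] at hrw; exact absurd hrw (by simp)
    · rw [hb] at hrw
      simp only [Bool.and_eq_true, beq_iff_eq] at hb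
      have : r = q j := cnt_inj (Nat.zero_le _) (Nat.zero_le _) hb.1 hob hb.2
      subst this
      exact (Option.some.inj hrw).symm
  refine hq2 z hz1 hz2 ?_ ?_
  · unfold v2; rw [hW]; simp
  · unfold v1; rw [hW]; simp

end Pool.Agent.V11258.F1
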